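import Pool.Agent.J4H4.NG.Stm

/-!
Project NG (helper4, RH row), piece UPT: upper bound for the number of all zeros.
-/

set_option autoImplicit false

namespace Pool.Agent.J4H79.NG

open Complex Pool.Agent.J4H4.NG

theorem t_UPT (hJ : S_JEN) (hG : S_GRO) : S_UPT := by
  intro b hb
  obtain ⟨R₀, hR₀, h1, -, h0, hd⟩ := hG b hb
  obtain ⟨H, hH⟩ : ∃ H : ℂ → ℂ, H = J4H2.DN.Hd (-b) := ⟨_, rfl⟩
  rw [← hH] at h1 h0 hd ⊢
  have h0' : 0 < ‖H 0‖ := norm_pos_iff.mpr h0
  obtain ⟨B, hB⟩ := (isCompact_closedBall (0 : ℂ) R₀).exists_bound_of_continuousOn (f := H)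
    hd.continuous.continuousOn
  have hB0 : 0 ≤ B := (norm_nonneg _).trans (hB 0 (Metric.mem_closedBall_self (by linarith)))
  obtain ⟨L, hL⟩ : ∃ L : ℝ, L = Real.log ((B + 1) / ‖H 0‖) := ⟨_, rfl⟩
  refine ⟨max R₀ (max 8 (5 * |L|)), hR₀.trans (le_max_left _ _), ?_⟩
  intro R hR S hS
  have hR1 : R₀ ≤ R := (le_max_left _ _).trans hR
  have hR8 : 8 ≤ R := ((le_max_left _ _).trans (le_max_right _ _)).trans hR
  have hRL : 5 * |L| ≤ R := ((le_max_right _ _).trans (le_max_right _ _)).trans hR
  have hRp : 0 < R := by linarith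
  have hpos : 0 < (B + 1) / ‖H 0‖ := by positivity
  have key := hJ H 0 R (2 * R * Real.log (2 * R) + L) hd hRp h0 ?_ S ?_
  · refine key.trans ?_
    have hl2 := Real.log_two_gt_d9
    have hl2' := Real.log_two_lt_d9
    rw [div_le_iff₀ (by linarith), Real.log_mul (by norm_num) hRp.ne']
    have hlR : 3 * Real.log 2 ≤ Real.log R := by
      have e : 3 * Real.log 2 = Real.log 8 := by
        rw [show (8 : ℝ) = 2 ^ 3 by norm_num, Real.log_pow]
        norm_num
      rw [e]
      exact Real.log_le_log (by norm_num) hR8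
    have hLa : L ≤ |L| := le_abs_self L
    have k1 : L ≤ R / 5 := by linarith
    have k2 : 0 ≤ Real.log R - 2.07 := by linarith
    have k3 : R * (1 / 5) ≤ R * (4 * Real.log R * Real.log 2 - 2 * (Real.log 2 + Real.log R)) := by
      apply mul_le_mul_of_nonneg_left _ hRp.le
      nlinarith
    nlinarith
  · intro w hw
    rw [sub_zero] at hw
    have e1 : Real.exp (2 * R * Real.log (2 * R) + L) * ‖H 0‖ =
        Real.exp (2 * R * Real.log (2 * R)) * (B + 1) := by
      rw [Real.exp_add, hL, Real.exp_log hpos]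
      field_simp
    rw [e1]
    have hlog : 0 ≤ Real.log (2 * R) := Real.log_nonneg (by linarith)
    have hexp : 1 ≤ Real.exp (2 * R * Real.log (2 * R)) := Real.one_le_exp (by positivity)
    rcases le_or_gt R₀ ‖w‖ with h | h
    · have h2 := h1 w h
      have h3 : ‖w‖ * Real.log ‖w‖ ≤ 2 * R * Real.log (2 * R) := by
        have hw2 : 2 ≤ ‖w‖ := hR₀.trans h
        apply mul_le_mul hw (Real.log_le_log (by linarith) hw) (Real.log_nonneg (by linarith))
          (by linarith)
      have h4 := h2.trans (Real.exp_le_exp.mpr h3)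
      nlinarith [Real.exp_pos (2 * R * Real.log (2 * R))]
    · have h2 := hB w (by rw [mem_closedBall_zero_iff]; exact h.le)
      nlinarith
  · intro w hw
    rw [sub_zero]
    exact hS w hw

end Pool.Agent.J4H79.NG
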