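import Pool.Agent.J4H4.NG.Stm

/-!
Project NG (helper4, RH row): parts of G: from the mean square to the measure.
-/

set_option autoImplicit false

namespace Pool.Agent.J4H79.NG

open Complex MeasureTheory Pool.Agent.J4H4.NG

/-- Chebyshev's inequality for a trigonometric sum on `[T, 2 T]`. -/
theorem meas_of_MS (hM : S_MS) {ι : Type} [DecidableEq ι] (J : Finset ι) (om : ι → ℝ) (A : ι → ℂ)
    (T D y : ℝ) (hT : 1 ≤ T) (hD : 0 ≤ D) (hy : 0 < y)
    (hsp : ∀ i ∈ J, ∀ j ∈ J, i ≠ j → D ≤ |om i - om j|) :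
    volume {v : ℝ | T ≤ v ∧ v ≤ 2 * T ∧ y ≤ ‖∑ j ∈ J, A j * cexp (I * (om j * v))‖} ≤
      ENNReal.ofReal (3 * T * (∑ j ∈ J, ‖A j‖ ^ 2 +
        Real.exp (-(T * D) ^ 2 / 4) * (∑ j ∈ J, ‖A j‖) ^ 2) / y ^ 2) := by
  obtain ⟨f, hf⟩ : ∃ f : ℝ → ℝ, f = fun v : ℝ => ‖∑ j ∈ J, A j * cexp (I * (om j * v))‖ ^ 2 := ⟨_, rfl⟩
  have hfc : Continuous f := by
    rw [hf]
    fun_prop
  have hf0 : ∀ v, 0 ≤ f v := fun v => by rw [hf]; positivity
  have hint := hM J om A T D hT hD hsp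
  have hint' : ∫ v in T..2 * T, f v ≤ 3 * T * (∑ j ∈ J, ‖A j‖ ^ 2 +
      Real.exp (-(T * D) ^ 2 / 4) * (∑ j ∈ J, ‖A j‖) ^ 2) := by
    rw [hf]
    exact hint
  have hy2 : (0 : ℝ) < y ^ 2 := by positivity
  have h1 : volume {v : ℝ | T ≤ v ∧ v ≤ 2 * T ∧ y ≤ ‖∑ j ∈ J, A j * cexp (I * (om j * v))‖} ≤
      (volume.restrict (Set.Icc T (2 * T))) {v | ENNReal.ofReal (y ^ 2) ≤ ENNReal.ofReal (f v)} := by
    rw [Measure.restrict_apply' measurableSet_Icc]
    apply measure_mono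
    rintro v ⟨h1, h2, h3⟩
    refine ⟨?_, h1, h2⟩
    show ENNReal.ofReal (y ^ 2) ≤ ENNReal.ofReal (f v)
    apply ENNReal.ofReal_le_ofReal
    rw [hf]
    exact pow_le_pow_left₀ hy.le h3 2
  have h2 : (volume.restrict (Set.Icc T (2 * T))) {v | ENNReal.ofReal (y ^ 2) ≤ ENNReal.ofReal (f v)} ≤
      (∫⁻ v in Set.Icc T (2 * T), ENNReal.ofReal (f v)) / ENNReal.ofReal (y ^ 2) := by
    apply meas_ge_le_lintegral_div
    · exact (hfc.measurable.ennreal_ofReal).aemeasurable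
    · exact (ENNReal.ofReal_pos.mpr hy2).ne'
    · exact ENNReal.ofReal_ne_top
  have h3 : (∫⁻ v in Set.Icc T (2 * T), ENNReal.ofReal (f v)) = ENNReal.ofReal (∫ v in T..2 * T, f v) := by
    rw [intervalIntegral.integral_of_le (by linarith), ← integral_Icc_eq_integral_Ioc,
      ← ofReal_integral_eq_lintegral_ofReal]
    · exact hfc.continuousOn.integrableOn_Icc
    · exact Filter.Eventually.of_forall hf0
  refine h1.trans (h2.trans ?_)
  rw [h3, ← ENNReal.ofReal_div_of_pos hy2]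
  exact ENNReal.ofReal_le_ofReal (div_le_div_of_nonneg_right hint' hy2.le)

theorem log_gap {m n : ℕ} (hm : 1 ≤ m) (hn : 1 ≤ n) (hne : m ≠ n) {B : ℝ} (hmB : (m : ℝ) ≤ B)
    (hnB : (n : ℝ) ≤ B) : 1 / B ≤ |Real.log m - Real.log n| := by
  have key : ∀ m n : ℕ, 1 ≤ n → n < m → (m : ℝ) ≤ B → 1 / B ≤ Real.log m - Real.log n := by
    intro m n hn hlt hmB
    have hn0 : (0 : ℝ) < n := by exact_mod_cast hn
    have hm0 : (0 : ℝ) < m := by exact_mod_cast (show 0 < m by omega)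
    rw [← Real.log_div hm0.ne' hn0.ne']
    have h1 := Real.one_sub_inv_le_log_of_pos (show (0 : ℝ) < m / n by positivity)
    refine le_trans ?_ h1
    rw [inv_div]
    have h2 : (n : ℝ) + 1 ≤ m := by exact_mod_cast hlt
    have h3 : 1 / B ≤ 1 / (m : ℝ) := one_div_le_one_div_of_le hm0 hmB
    refine h3.trans ?_
    rw [show 1 - (n : ℝ) / m = (m - n) / m by field_simp]
    exact div_le_div_of_nonneg_right (by linarith) hm0.le
  rcases lt_or_gt_of_ne hne with h | h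
  · rw [abs_sub_comm]
    exact (key n m hm h hnB).trans (le_abs_self _)
  · exact (key m n hn h hmB).trans (le_abs_self _)

/-- spacing of the frequencies -/
theorem spacing {k k' p p' : ℕ} (hk : 1 ≤ k) (hk' : 1 ≤ k') (hp : p.Prime) (hp' : p'.Prime)
    (h : ¬ p ∣ k) (h' : ¬ p' ∣ k') (hne : (k, p) ≠ (k', p')) {B : ℝ}
    (h1 : (p : ℝ) * k' ≤ B) (h2 : (p' : ℝ) * k ≤ B) :
    1 / B ≤ |(Real.log p - Real.log k) - (Real.log p' - Real.log k')| := by
  have hne' : p * k' ≠ p' * k := by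
    intro he
    have hd : p ∣ p' * k := he ▸ Dvd.intro _ rfl
    have hd2 : p ∣ p' := ((Nat.Prime.dvd_mul hp).1 hd).resolve_right h
    have he2 : p = p' := (Nat.prime_dvd_prime_iff_eq hp hp').1 hd2
    subst he2
    have he3 : k' = k := Nat.eq_of_mul_eq_mul_left hp.pos he
    exact hne (by rw [he3])
  have hpp := hp.pos
  have hpp' := hp'.pos
  have h3 := log_gap (m := p * k') (n := p' * k) (Nat.mul_pos hpp hk') (Nat.mul_pos hpp' hk) hne'
    (B := B) (by push_cast; exact h1) (by push_cast; exact h2)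
  push_cast at h3
  rw [Real.log_mul (by positivity) (by positivity), Real.log_mul (by positivity) (by positivity)] at h3
  refine h3.trans (le_of_eq ?_)
  congr 1
  ring

/-- The noise is small except on a small set. -/
theorem G6 (hM : S_MS) (hNS : S_NS) (hCH : S_CH) (a μ κ δ : ℝ) (ha : 0 < a) (hμ : 0 < μ)
    (hμ2 : μ < 1 / 2) (hκ : 0 < κ) (hδ : 0 < δ) : ∃ (z : ℕ) (T₀ : ℝ), 2 ≤ T₀ ∧ ∀ T : ℝ, T₀ ≤ T →
    ∀ lam : ℝ, μ * Real.log T ≤ lam → lam ≤ (1 / 2 - μ) * Real.log T → ∀ N : ℕ, N = ⌊Real.exp lam⌋₊ →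
    ∀ (J : Finset (ℕ × ℕ)) (A : ℕ × ℕ → ℂ),
    (∀ x ∈ J, x.2 ∈ (Finset.Ioc N (2 * N)).filter Nat.Prime ∧ Rough z x.1 ∧ 1 ≤ x.1 ∧
      (x.1 : ℝ) ≤ Real.exp ((1 + μ) * lam) ∧ ¬ x.2 ∣ x.1 ∧
      ‖A x‖ ≤ Real.exp (a * Real.pi ^ 2 / 16) * amp a lam x.1 * wt (κ * Real.log T) x.1 x.2) →
    volume {v : ℝ | T ≤ v ∧ v ≤ 2 * T ∧
      (κ * Real.log T / 2 * Real.exp (a * Real.pi ^ 2 / 16) *
        ∑ p ∈ (Finset.Ioc N (2 * N)).filter Nat.Prime, amp a lam p) / 2 ≤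
      ‖∑ x ∈ J, A x * cexp (I * (((Real.log x.2 - Real.log x.1 : ℝ) : ℂ) * v))‖} ≤
      ENNReal.ofReal (δ * T) := by
  obtain ⟨c, hc, hCH⟩ := hCH
  obtain ⟨ε, hε⟩ : ∃ ε : ℝ, ε = δ * c * κ / (1536 * Real.exp (8 * a)) := ⟨_, rfl⟩
  have hε0 : 0 < ε := by rw [hε]; positivity
  obtain ⟨z, l₀, hl₀, hNS⟩ := hNS a ε ha hε0
  -- large T
  have q1 : ∀ᶠ T : ℝ in Filter.atTop, l₀ ≤ κ * Real.log T :=
    ((Real.tendsto_log_atTop.const_mul_atTop hκ).eventually_ge_atTop l₀)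
  have q2 : ∀ᶠ T : ℝ in Filter.atTop, (κ * Real.log T) ^ 2 + 3 ≤ Real.exp (μ * Real.log T) := by
    have h1 : Filter.Tendsto (fun x : ℝ => Real.exp (μ * x) / x ^ 2) Filter.atTop Filter.atTop := by
      have h2 := (Real.tendsto_exp_div_pow_atTop 2).comp
        (Filter.tendsto_id.const_mul_atTop hμ)
      have h3 : (fun x : ℝ => Real.exp (μ * x) / x ^ 2) =
          fun x => μ ^ 2 * ((fun x : ℝ => Real.exp x / x ^ 2) ∘ (fun x => μ * id x)) x := by
        funext x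
        simp only [Function.comp, id]
        field_simp
      rw [h3]
      exact h2.const_mul_atTop (by positivity)
    have h4 := (h1.comp Real.tendsto_log_atTop).eventually_ge_atTop (κ ^ 2 + 3)
    filter_upwards [h4, Real.tendsto_log_atTop.eventually_ge_atTop 1] with T h5 h6
    simp only [Function.comp] at h5
    have h7 : (0 : ℝ) < Real.log T ^ 2 := by positivity
    rw [le_div_iff₀ h7] at h5
    nlinarith
  have q3 : ∀ᶠ T : ℝ in Filter.atTop, κ * T ^ 8 * Real.exp (-(Real.exp (μ * Real.log T)) ^ 2 / 16) ≤ ε := by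
    filter_upwards [Real.tendsto_log_atTop.eventually_ge_atTop (144 / μ ^ 2),
      Real.tendsto_log_atTop.eventually_ge_atTop (Real.log (κ / ε)), Filter.eventually_gt_atTop (0 : ℝ)] with T h1 h2 h3
    obtain ⟨x, hx⟩ : ∃ x : ℝ, x = Real.log T := ⟨_, rfl⟩
    rw [← hx] at h1 h2 ⊢
    have hTx : T = Real.exp x := by rw [hx, Real.exp_log h3]
    have h4 : T ^ 8 = Real.exp (8 * x) := by
      rw [hTx, ← Real.exp_nat_mul]
      norm_num
    rw [h4, mul_assoc, ← Real.exp_add]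
    have hx0 : 0 < x := lt_of_lt_of_le (by positivity) h1
    have h5 : (μ * x) ^ 2 ≤ (Real.exp (μ * x)) ^ 2 := by
      apply pow_le_pow_left₀ (by positivity)
      have := Real.add_one_le_exp (μ * x)
      linarith
    have h6 : 144 * x ≤ (μ * x) ^ 2 := by
      rw [div_le_iff₀ (by positivity)] at h1
      nlinarith
    have h7 : Real.exp (8 * x + -(Real.exp (μ * x)) ^ 2 / 16) ≤ Real.exp (-Real.log (κ / ε)) := by
      apply Real.exp_le_exp.mpr
      linarith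
    rw [Real.exp_neg, Real.exp_log (by positivity)] at h7
    calc κ * Real.exp (8 * x + -(Real.exp (μ * x)) ^ 2 / 16) ≤ κ * (κ / ε)⁻¹ :=
          mul_le_mul_of_nonneg_left h7 hκ.le
      _ = ε := by field_simp
  obtain ⟨T₀, hT₀⟩ := (Filter.eventually_atTop.1 (q1.and (q2.and q3)))
  refine ⟨z, max 3 T₀, le_trans (by norm_num) (le_max_left _ _), ?_⟩
  intro T hT lam hlam1 hlam2 N hN J A hJ
  have hT3 : 3 ≤ T := (le_max_left _ _).trans hT
  obtain ⟨g1, g2, g3⟩ := hT₀ T ((le_max_right _ _).trans hT)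
  obtain ⟨L, hL⟩ : ∃ L : ℝ, L = Real.log T := ⟨_, rfl⟩
  obtain ⟨l, hl⟩ : ∃ l : ℝ, l = κ * Real.log T := ⟨_, rfl⟩
  obtain ⟨E, hE⟩ : ∃ E : ℝ, E = Real.exp (a * Real.pi ^ 2 / 16) := ⟨_, rfl⟩
  have hE0 : 0 < E := by rw [hE]; positivity
  rw [← hl] at g1 g2 hJ ⊢
  rw [← hE] at hJ ⊢
  have hT0 : 0 < T := by linarith
  have hL1 : 1 ≤ L := by
    rw [hL, Real.le_log_iff_exp_le hT0]
    exact Real.exp_one_lt_d9.le.trans (by linarith)
  have hL0 : 0 < L := by linarith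
  have hl0 : 0 < l := by linarith
  rw [← hL] at hlam1 hlam2 g2 g3
  have hlam0 : 0 < lam := lt_of_lt_of_le (by positivity) hlam1
  have hlamL : lam ≤ L := by nlinarith
  obtain ⟨X, hX⟩ : ∃ X : ℝ, X = Real.exp lam := ⟨_, rfl⟩
  have hX3 : Real.exp (μ * L) ≤ X := by rw [hX]; exact Real.exp_le_exp.mpr hlam1
  have hNX : (N : ℝ) ≤ X := by rw [hN, hX]; exact Nat.floor_le (Real.exp_pos _).le
  have hNX2 : X < N + 1 := by rw [hN, hX]; exact Nat.lt_floor_add_one _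
  have hX3' : 3 ≤ X := by nlinarith [sq_nonneg l]
  have hN2 : (2 : ℝ) < N := by linarith
  have hN2' : 2 ≤ N := by
    have : (2 : ℕ) < N := by exact_mod_cast hN2
    omega
  have hN0 : (0 : ℝ) < N := by linarith
  have hlN : l ^ 2 ≤ N := by linarith
  have hlogN : Real.log N ≤ lam := by
    rw [Real.log_le_iff_le_exp hN0, ← hX]
    exact hNX
  have hlogN2 : lam - 1 ≤ Real.log N := by
    have h1 : X / 2 ≤ N := by linarith
    have h2 : Real.log (X / 2) ≤ Real.log N := Real.log_le_log (by linarith) h1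
    rw [Real.log_div (by linarith) (by norm_num), hX, Real.log_exp] at h2
    have := Real.log_two_lt_d9
    linarith
  have habs : |Real.log N - lam| ≤ 1 := by
    rw [abs_le]
    constructor <;> linarith
  obtain ⟨Q, hQ⟩ : ∃ Q : Finset ℕ, Q = (Finset.Ioc N (2 * N)).filter Nat.Prime := ⟨_, rfl⟩
  rw [← hQ] at hJ ⊢
  have hq := hCH N hN2'
  rw [← hQ] at hq
  obtain ⟨q, hqq⟩ : ∃ q : ℝ, q = (Q.card : ℝ) := ⟨_, rfl⟩
  rw [← hqq] at hq
  have hlogN0 : 0 < Real.log N := Real.log_pos (by linarith)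
  have hq0 : 0 < q := lt_of_lt_of_le (by positivity) hq
  have hq1 : 1 ≤ q := by
    rw [hqq] at hq0 ⊢
    have : 0 < Q.card := by exact_mod_cast hq0
    exact_mod_cast this
  -- the squares
  have hwt0 : ∀ k p : ℕ, 0 ≤ wt l k p := fun k p => by
    unfold wt
    positivity
  have hamp0 : ∀ k : ℕ, 0 ≤ amp a lam k := fun k => by
    unfold amp
    positivity
  have hsq : ∑ x ∈ J, ‖A x‖ ^ 2 ≤ E ^ 2 * (q * (ε * l / (N : ℝ) ^ 3)) := by
    have h1 : ∑ x ∈ J, ‖A x‖ ^ 2 = ∑ p ∈ Q, ∑ x ∈ J.filter (fun x => x.2 = p), ‖A x‖ ^ 2 :=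
      (Finset.sum_fiberwise_of_maps_to (fun x hx => (hJ x hx).1) _).symm
    rw [h1]
    have h2 : ∀ p ∈ Q, ∑ x ∈ J.filter (fun x => x.2 = p), ‖A x‖ ^ 2 ≤ E ^ 2 * (ε * l / (N : ℝ) ^ 3) := by
      intro p hp
      have h3 := hNS N lam l g1 hlN habs p (by rw [← hQ]; exact hp)
        ((J.filter (fun x => x.2 = p)).image Prod.fst) (by
          intro k hk
          rw [Finset.mem_image] at hk
          obtain ⟨x, hx, rfl⟩ := hk
          rw [Finset.mem_filter] at hx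
          obtain ⟨h4, h5, h6, h7, h8, h9⟩ := hJ x hx.1
          refine ⟨h5, ?_, h6⟩
          intro he
          apply h8
          rw [hx.2, he])
      rw [Finset.sum_image (by
        intro x hx y hy hxy
        rw [Finset.mem_coe, Finset.mem_filter] at hx hy
        exact Prod.ext hxy (hx.2.trans hy.2.symm))] at h3
      refine le_trans ?_ (mul_le_mul_of_nonneg_left h3 (by positivity))
      rw [Finset.mul_sum]
      refine Finset.sum_le_sum fun x hx => ?_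
      rw [Finset.mem_filter] at hx
      obtain ⟨h4, h5, h6, h7, h8, h9⟩ := hJ x hx.1
      rw [← hx.2]
      calc ‖A x‖ ^ 2 ≤ (E * amp a lam x.1 * wt l x.1 x.2) ^ 2 := pow_le_pow_left₀ (norm_nonneg _) h9 2
        _ = _ := by ring
    refine (Finset.sum_le_sum h2).trans (le_of_eq ?_)
    rw [Finset.sum_const, nsmul_eq_mul, ← hqq]
    ring
  -- the sum
  have hKT : Real.exp ((1 + μ) * lam) ≤ T := by
    rw [← Real.exp_log hT0, ← hL]
    apply Real.exp_le_exp.mpr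
    nlinarith
  have hXT : X ≤ T := by
    rw [hX, ← Real.exp_log hT0, ← hL]
    exact Real.exp_le_exp.mpr hlamL
  have hQle : ∀ p ∈ Q, p.Prime ∧ N < p ∧ p ≤ 2 * N := by
    intro p hp
    rw [hQ, Finset.mem_filter, Finset.mem_Ioc] at hp
    exact ⟨hp.2, hp.1.1, hp.1.2⟩
  have hcardJ : (J.card : ℝ) ≤ 2 * T ^ 2 := by
    have h1 : J ⊆ (Finset.Icc 1 ⌊T⌋₊) ×ˢ (Finset.Icc 1 (2 * N)) := by
      intro x hx
      obtain ⟨h4, h5, h6, h7, h8, h9⟩ := hJ x hx
      rw [Finset.mem_product, Finset.mem_Icc, Finset.mem_Icc]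
      exact ⟨⟨h6, Nat.le_floor (h7.trans hKT)⟩, (hQle _ h4).1.one_le, (hQle _ h4).2.2⟩
    have h2 := Finset.card_le_card h1
    rw [Finset.card_product, Nat.card_Icc, Nat.card_Icc, Nat.add_sub_cancel, Nat.add_sub_cancel] at h2
    have h3 : (J.card : ℝ) ≤ (⌊T⌋₊ : ℝ) * (2 * N) := by exact_mod_cast h2
    have h4 : (⌊T⌋₊ : ℝ) ≤ T := Nat.floor_le hT0.le
    have h5 : (N : ℝ) ≤ T := hNX.trans hXT
    calc (J.card : ℝ) ≤ (⌊T⌋₊ : ℝ) * (2 * N) := h3
      _ ≤ T * (2 * T) := by gcongr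
      _ = 2 * T ^ 2 := by ring
  have hsum : ∑ x ∈ J, ‖A x‖ ≤ E * l * T ^ 2 := by
    have h1 : ∀ x ∈ J, ‖A x‖ ≤ E * (l / 2) := by
      intro x hx
      obtain ⟨h4, h5, h6, h7, h8, h9⟩ := hJ x hx
      refine h9.trans ?_
      have h10 : amp a lam x.1 ≤ 1 := by
        unfold amp
        have h11 : (1 : ℝ) ≤ (x.1 : ℝ) ^ 2 := one_le_pow₀ (by exact_mod_cast h6)
        apply mul_le_one₀ (inv_le_one_of_one_le₀ h11) (Real.exp_pos _).le
        rw [Real.exp_le_one_iff]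
        have : 0 ≤ a * (Real.log x.1 - lam) ^ 2 := by positivity
        linarith
      have h12 : wt l x.1 x.2 ≤ l / 2 := min_le_left _ _
      have h13 := hwt0 x.1 x.2
      have h14 := hamp0 x.1
      calc E * amp a lam x.1 * wt l x.1 x.2 ≤ E * 1 * (l / 2) := by gcongr
        _ = _ := by ring
    refine (Finset.sum_le_card_nsmul _ _ _ h1).trans ?_
    rw [nsmul_eq_mul]
    calc (J.card : ℝ) * (E * (l / 2)) ≤ 2 * T ^ 2 * (E * (l / 2)) := by gcongr
      _ = _ := by ring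
  -- the spacing
  obtain ⟨B, hB⟩ : ∃ B : ℝ, B = 2 * (X * Real.exp ((1 + μ) * lam)) := ⟨_, rfl⟩
  have hX0 : 0 < X := by linarith
  have hB0 : 0 < B := by rw [hB]; positivity
  have hsp : ∀ x ∈ J, ∀ y ∈ J, x ≠ y → 1 / B ≤
      |(Real.log x.2 - Real.log x.1) - (Real.log y.2 - Real.log y.1)| := by
    intro x hx y hy hxy
    obtain ⟨h4, h5, h6, h7, h8, h9⟩ := hJ x hx
    obtain ⟨k4, k5, k6, k7, k8, k9⟩ := hJ y hy
    obtain ⟨m1, m2, m3⟩ := hQle _ h4
    obtain ⟨n1, n2, n3⟩ := hQle _ k4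
    have m3' : (x.2 : ℝ) ≤ 2 * X := by
      have : (x.2 : ℝ) ≤ 2 * N := by exact_mod_cast m3
      linarith
    have n3' : (y.2 : ℝ) ≤ 2 * X := by
      have : (y.2 : ℝ) ≤ 2 * N := by exact_mod_cast n3
      linarith
    refine spacing h6 k6 m1 n1 h8 k8 hxy ?_ ?_
    · rw [hB, ← mul_assoc]
      exact mul_le_mul m3' k7 (Nat.cast_nonneg _) (by positivity)
    · rw [hB, ← mul_assoc]
      exact mul_le_mul n3' h7 (Nat.cast_nonneg _) (by positivity)
  have hTB : Real.exp (μ * L) / 2 ≤ T * (1 / B) := by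
    rw [hB, hX, ← Real.exp_add, mul_one_div, le_div_iff₀ (by positivity)]
    have h1 : Real.exp (μ * L) / 2 * (2 * Real.exp (lam + (1 + μ) * lam)) =
        Real.exp (μ * L + (lam + (1 + μ) * lam)) := by
      rw [Real.exp_add (μ * L)]
      ring
    rw [h1]
    have h9 : Real.exp L ≤ T := by rw [hL, Real.exp_log hT0]
    refine le_trans (Real.exp_le_exp.mpr ?_) h9
    have h2 : (2 + μ) * lam ≤ (2 + μ) * ((1 / 2 - μ) * L) :=
      mul_le_mul_of_nonneg_left hlam2 (by linarith)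
    nlinarith
  have hexp : Real.exp (-(T * (1 / B)) ^ 2 / 4) ≤ Real.exp (-(Real.exp (μ * L)) ^ 2 / 16) := by
    apply Real.exp_le_exp.mpr
    have h1 : (Real.exp (μ * L) / 2) ^ 2 ≤ (T * (1 / B)) ^ 2 :=
      pow_le_pow_left₀ (by positivity) hTB 2
    nlinarith
  have hsmall : Real.exp (-(T * (1 / B)) ^ 2 / 4) * (∑ x ∈ J, ‖A x‖) ^ 2 ≤
      E ^ 2 * (q * (ε * l / (N : ℝ) ^ 3)) := by
    have hs0 : 0 ≤ ∑ x ∈ J, ‖A x‖ := Finset.sum_nonneg fun _ _ => norm_nonneg _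
    obtain ⟨e, he⟩ : ∃ e : ℝ, e = Real.exp (-(Real.exp (μ * L)) ^ 2 / 16) := ⟨_, rfl⟩
    have he0 : 0 < e := by rw [he]; positivity
    rw [← he] at hexp g3
    have hlT : l ≤ κ * T := by
      rw [hl]
      exact mul_le_mul_of_nonneg_left ((Real.log_le_sub_one_of_pos hT0).trans (by linarith)) hκ.le
    have h1 : e * (E * l * T ^ 2) ^ 2 ≤ E ^ 2 * (q * (ε * l / (N : ℝ) ^ 3)) := by
      have h2 : (N : ℝ) ^ 3 ≤ T ^ 3 := pow_le_pow_left₀ hN0.le (hNX.trans hXT) 3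
      have h3 : e * (κ * T) * T ^ 4 * T ^ 3 ≤ ε := by
        refine le_trans (le_of_eq ?_) g3
        ring
      have h4 : e * l * T ^ 4 * (N : ℝ) ^ 3 ≤ ε := by
        refine le_trans ?_ h3
        gcongr
      have h5 : e * (E * l * T ^ 2) ^ 2 = E ^ 2 * l * (e * l * T ^ 4) := by ring
      rw [h5]
      have h6 : E ^ 2 * (q * (ε * l / (N : ℝ) ^ 3)) = E ^ 2 * l * (q * (ε / (N : ℝ) ^ 3)) := by
        ring
      rw [h6]
      apply mul_le_mul_of_nonneg_left _ (by positivity)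
      have h7 : e * l * T ^ 4 ≤ ε / (N : ℝ) ^ 3 := by
        rw [le_div_iff₀ (by positivity)]
        exact h4
      have h8 : ε / (N : ℝ) ^ 3 ≤ q * (ε / (N : ℝ) ^ 3) := le_mul_of_one_le_left (by positivity) hq1
      exact h7.trans h8
    refine le_trans ?_ h1
    gcongr
  -- the diagonal
  obtain ⟨y, hy⟩ : ∃ y : ℝ, y = (l / 2 * E * ∑ p ∈ Q, amp a lam p) / 2 := ⟨_, rfl⟩
  rw [← hy]
  obtain ⟨y₀, hy₀⟩ : ∃ y₀ : ℝ, y₀ = l * E * q * Real.exp (-(4 * a)) / (16 * (N : ℝ) ^ 2) := ⟨_, rfl⟩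
  have hy₀0 : 0 < y₀ := by rw [hy₀]; positivity
  have hyy : y₀ ≤ y := by
    have h1 : ∀ p ∈ Q, Real.exp (-(4 * a)) / (4 * (N : ℝ) ^ 2) ≤ amp a lam p := by
      intro p hp
      obtain ⟨m1, m2, m3⟩ := hQle p hp
      have hp0 : (0 : ℝ) < p := by exact_mod_cast m1.pos
      have m2' : (N : ℝ) ≤ p := by exact_mod_cast m2.le
      have m3' : (p : ℝ) ≤ 2 * N := by exact_mod_cast m3
      have h2 : |Real.log p - lam| ≤ 2 := by
        have h3 : Real.log N ≤ Real.log p := Real.log_le_log hN0 m2'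
        have h4 : Real.log p ≤ Real.log 2 + Real.log N := by
          rw [← Real.log_mul (by norm_num) hN0.ne']
          exact Real.log_le_log hp0 m3'
        have := Real.log_two_lt_d9
        rw [abs_le] at habs ⊢
        constructor <;> linarith
      have h5 : (Real.log p - lam) ^ 2 ≤ 4 := by
        rw [← sq_abs]
        have := abs_nonneg (Real.log p - lam)
        nlinarith
      unfold amp
      rw [div_eq_mul_inv, mul_comm]
      apply mul_le_mul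
      · apply inv_anti₀ (by positivity)
        calc (p : ℝ) ^ 2 ≤ (2 * N) ^ 2 := pow_le_pow_left₀ hp0.le m3' 2
          _ = _ := by ring
      · apply Real.exp_le_exp.mpr
        nlinarith
      · positivity
      · positivity
    have h2 := Finset.card_nsmul_le_sum Q (fun p => amp a lam p) _ h1
    rw [nsmul_eq_mul, ← hqq] at h2
    rw [hy, hy₀]
    have h3 : l * E * q * Real.exp (-(4 * a)) / (16 * (N : ℝ) ^ 2) =
        (l / 2 * E * (q * (Real.exp (-(4 * a)) / (4 * (N : ℝ) ^ 2)))) / 2 := by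
      field_simp
      ring
    rw [h3]
    gcongr
  have hy0 : 0 < y := hy₀0.trans_le hyy
  -- conclusion
  have hfin := meas_of_MS hM J (fun x => Real.log x.2 - Real.log x.1) A T (1 / B) y (by linarith)
    (by positivity) hy0 hsp
  refine hfin.trans (ENNReal.ofReal_le_ofReal ?_)
  have h1 : 3 * T * (∑ j ∈ J, ‖A j‖ ^ 2 + Real.exp (-(T * (1 / B)) ^ 2 / 4) * (∑ j ∈ J, ‖A j‖) ^ 2) / y ^ 2 ≤
      3 * T * (2 * (E ^ 2 * (q * (ε * l / (N : ℝ) ^ 3)))) / y₀ ^ 2 := by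
    apply div_le_div₀ (by positivity) _ (by positivity) (pow_le_pow_left₀ hy₀0.le hyy 2)
    apply mul_le_mul_of_nonneg_left _ (by positivity)
    linarith
  refine h1.trans ?_
  rw [hy₀]
  have h2 : 3 * T * (2 * (E ^ 2 * (q * (ε * l / (N : ℝ) ^ 3)))) /
      (l * E * q * Real.exp (-(4 * a)) / (16 * (N : ℝ) ^ 2)) ^ 2 =
      1536 * ε * T * N / (l * q * (Real.exp (-(4 * a))) ^ 2) := by
    field_simp
    ring
  rw [h2]
  have h3 : (Real.exp (-(4 * a))) ^ 2 = (Real.exp (8 * a))⁻¹ := by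
    rw [← Real.exp_nat_mul, ← Real.exp_neg]
    congr 1
    push_cast
    ring
  rw [h3, div_le_iff₀ (by positivity)]
  have h4 : (N : ℝ) * c ≤ q * L := by
    have h5 : c * N / Real.log N ≤ q := hq
    rw [div_le_iff₀ hlogN0] at h5
    have h6 : q * Real.log N ≤ q * L := mul_le_mul_of_nonneg_left (hlogN.trans hlamL) hq0.le
    linarith
  have h5 : δ * T * (l * q * (Real.exp (8 * a))⁻¹) = (1536 * ε * T / c) * (q * L) := by
    rw [hε, hl, ← hL]
    field_simp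
  rw [h5]
  have h6 : 1536 * ε * T * N = (1536 * ε * T / c) * (N * c) := by field_simp
  rw [h6]
  exact mul_le_mul_of_nonneg_left h4 (by positivity)

end Pool.Agent.J4H79.NG
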